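import Mathlib
import Pool.Agent.H22.Lev4

set_option autoImplicit false
open MeasureTheory ProbabilityTheory Set Filter Topology
open scoped NNReal
open Pool.Agent.H22.Hunt Pool.Agent.H22.Lev

namespace Pool.Agent.Results.MP_9a0bf1_pr.Counter

theorem result : ∃ (Ω : Type) (_ : MeasurableSpace Ω) (P : Measure Ω) (_ : IsProbabilityMeasure P)
    (X Y : ℝ≥0 → Ω → ℝ), IsLevy P X ∧ IsLevy P Y ∧
    IndepFun (fun ω t => X t ω) (fun ω t => Y t ω) P ∧
    HuntH P X ∧ HuntH P Y ∧ ¬ HuntH P (fun t ω => X t ω + Y t ω) := by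
  have h1 := ok_yy true abs_one
  have h2 := ok_yy false (σ := -1) (by simp)
  refine ⟨Om, inferInstance, PP cc, inferInstance, _, _, levy h1, levy h2, ?_, reg _ abs_one,
    reg _ (by simp), nhW _ ?_⟩
  · have h3 : ∀ b σ, Measurable[cylinderEvents {p : I × ℕ | p.1.2 = b}]
        fun ω t => Z (yy b σ) (dd b σ) t ω := fun b σ => by
      let := cylinderEvents (X := fun _ : I × ℕ => Cell) {p : I × ℕ | p.1.2 = b}
      refine measurable_pi_lambda _ fun t => Z_meas' _ _ t _ fun i => ?_
      by_cases h : i.2 = b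
      · exact .inr fun _ => h
      · exact .inl (if_neg h)
    rw [indepFun_iff_measure_inter_preimage_eq_mul]
    exact fun s t hs ht => Pool.Agent.H22.Perc3.ind _ (disjoint_left.2 fun p h h' => by simp_all)
      (h3 _ _ hs) (h3 _ _ ht)
  · filter_upwards [summ h1, summ h2] with ω h3 h4 t
    rw [Z, Z, Z, ← (h3 t).tsum_add (h4 t)]
    congr with i
    simp only [f, Pi.add_apply]
    ring

end Pool.Agent.Results.MP_9a0bf1_pr.Counter
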